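import Pool.Agent.W4.QD.Stms

/-!
Project QD: the norm form is the binary form of the minimal polynomial.
-/

set_option autoImplicit false

namespace Pool.Agent.W154.QD

open NumberField Finset Polynomial Pool.Agent.W4.CF Pool.Agent.W4.VC Pool.Agent.W4.QD

section

variable {K : Type} [Field K] [NumberField K] (θ : 𝓞 K)

theorem int_rat : IsIntegral ℚ (θ : K) := IsIntegral.of_finite ℚ _

theorem minpoly_map : minpoly ℚ (θ : K) = (minpoly ℤ θ).map (Int.castRingHom ℚ) := by
  have h := minpoly.isIntegrallyClosed_eq_field_fractions (R := ℤ) (S := 𝓞 K) ℚ K (s := θ)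
    (RingOfIntegers.isIntegral θ)
  exact h

/-- the power basis -/
noncomputable def pb (h : Gen θ) : PowerBasis ℚ K := PowerBasis.ofAdjoinEqTop (int_rat θ) h

theorem pb_gen (h : Gen θ) : (pb θ h).gen = (θ : K) := PowerBasis.ofAdjoinEqTop_gen (int_rat θ) h

theorem natDegree_rat (h : Gen θ) :
    (minpoly ℚ (θ : K)).natDegree = Module.finrank ℚ K := by
  rw [(pb θ h).finrank, ← pb_gen θ h, (pb θ h).natDegree_minpoly]

theorem natDegree_int (h : Gen θ) : (minpoly ℤ θ).natDegree = Module.finrank ℚ K := by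
  rw [← natDegree_rat θ h, minpoly_map]
  exact (natDegree_map_eq_of_injective (Int.castRingHom ℚ).injective_int _).symm

/-- the norm of `x - θ` -/
theorem norm_sub (h : Gen θ) (x : ℚ) :
    Algebra.norm ℚ (algebraMap ℚ K x - (θ : K)) = (minpoly ℚ (θ : K)).eval x := by
  have h1 := charpoly_leftMulMatrix (pb θ h)
  rw [pb_gen θ h] at h1
  rw [← h1, Matrix.eval_charpoly, Algebra.norm_eq_matrix_det (pb θ h).basis, map_sub,
    AlgHom.commutes]
  rfl

theorem hom_cast (d : ℕ) (f : ℤ[X]) (hd : f.natDegree = d) (u v : ℤ) (hv : v ≠ 0) :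
    ((hom f d u v : ℤ) : ℚ) = (v : ℚ) ^ d * (f.map (Int.castRingHom ℚ)).eval ((u : ℚ) / v) := by
  have hv' : (v : ℚ) ≠ 0 := by exact_mod_cast hv
  unfold hom
  rw [eval_map, eval₂_eq_sum_range, hd, Finset.mul_sum]
  push_cast
  refine Finset.sum_congr rfl (fun j hj => ?_)
  rw [Finset.mem_range] at hj
  have hdj : (v : ℚ) ^ d = (v : ℚ) ^ j * (v : ℚ) ^ (d - j) := by
    rw [← pow_add]
    congr 1
    omega
  rw [hdj, div_pow]
  simp only [eq_intCast]
  field_simp

theorem hom_zero (d : ℕ) (f : ℤ[X]) (hd : f.natDegree = d) (hm : f.Monic) (u : ℤ) :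
    hom f d u 0 = u ^ d := by
  unfold hom
  rw [Finset.sum_range_succ, Finset.sum_eq_zero]
  · have : f.coeff d = 1 := by rw [← hd]; exact hm
    simp [this]
  · intro j hj
    rw [Finset.mem_range] at hj
    rw [zero_pow (by omega), mul_zero]

theorem norm_eq (h : Gen θ) (u v : ℤ) :
    Algebra.norm ℚ ((u : K) - v * (θ : K)) =
      ((hom (minpoly ℤ θ) (Module.finrank ℚ K) u v : ℤ) : ℚ) := by
  by_cases hv : v = 0
  · subst hv
    rw [hom_zero _ _ (natDegree_int θ h) (minpoly.monic (RingOfIntegers.isIntegral θ))]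
    have : ((u : K) - ((0 : ℤ) : K) * (θ : K)) = algebraMap ℚ K (u : ℚ) := by simp
    rw [this, Algebra.norm_algebraMap]
    push_cast
    rfl
  · have hv' : (v : ℚ) ≠ 0 := by exact_mod_cast hv
    have hvK : (v : K) ≠ 0 := by exact_mod_cast hv
    rw [hom_cast _ _ (natDegree_int θ h) u v hv, ← minpoly_map, ← norm_sub θ h]
    have e1 : ((u : K) - v * (θ : K)) =
        algebraMap ℚ K (v : ℚ) * (algebraMap ℚ K ((u : ℚ) / v) - (θ : K)) := by
      rw [mul_sub, ← map_mul, mul_div_cancel₀ _ hv']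
      simp
    rw [e1, map_mul, Algebra.norm_algebraMap]

end

theorem t_NRM : Pool.Agent.W4.QD.S_NRM := by
  intro K _ _ θ h
  have hN : ∀ u v : ℤ, ((NF θ u v : ℤ) : ℚ) = Algebra.norm ℚ ((u : K) - v * (θ : K)) := by
    intro u v
    unfold NF
    rw [Algebra.coe_norm_int]
    simp
  refine ⟨⟨?_, ?_, ?_⟩, ?_, ?_⟩
  · rw [← minpoly_map]
    exact (minpoly.irreducible (int_rat θ)).squarefree
  · exact (natDegree_int θ h).le
  · rw [natDegree_int θ h]
    omega
  · intro u v
    have h1 := norm_eq θ h u v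
    rw [← hN] at h1
    exact_mod_cast h1
  · intro hd u v h0
    have h1 : Algebra.norm ℚ ((u : K) - v * (θ : K)) = 0 := by
      rw [← hN, h0]
      simp
    rw [Algebra.norm_eq_zero_iff] at h1
    have hv : v = 0 := by
      by_contra hv
      have hvK : (v : K) ≠ 0 := by exact_mod_cast hv
      have hv' : (v : ℚ) ≠ 0 := by exact_mod_cast hv
      have h2 : (θ : K) = algebraMap ℚ K ((u : ℚ) / v) := by
        rw [map_div₀]
        simp only [map_intCast]
        rw [eq_div_iff hvK]
        linear_combination -h1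
      have h3 : (minpoly ℚ (θ : K)).natDegree = 1 := by
        rw [minpoly.natDegree_eq_one_iff]
        exact ⟨_, h2.symm⟩
      rw [natDegree_rat θ h] at h3
      omega
    subst hv
    refine ⟨?_, rfl⟩
    simp at h1
    exact_mod_cast h1

end Pool.Agent.W154.QD
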